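import Mathlib

/-!
# Lattice point counts in the dilates of the hypersimplex `{x ∈ [0,1]^3 : 1 ≤ ∑ x ≤ 2}`
-/

set_option autoImplicit false

namespace Pool.Agent.H176_EH

open Finset

/-- the triples in `[0,m]^3` with sum between `m` and `2m` -/
def S (m : ℕ) : Finset (ℕ × ℕ × ℕ) :=
  ((range (m + 1)) ×ˢ (range (m + 1)) ×ˢ (range (m + 1))).filter
    (fun t => m ≤ t.1 + t.2.1 + t.2.2 ∧ t.1 + t.2.1 + t.2.2 ≤ 2 * m)

theorem sum_tsub (n : ℕ) : ∀ k : ℕ, k ≤ n → 2 * ∑ y ∈ range n, (k - y) = k * (k + 1) := by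
  intro k
  induction k with
  | zero => intro _; simp
  | succ k ih =>
    intro h
    have h1 : ∀ y ∈ range n, (k + 1 - y) = (k - y) + if y < k + 1 then 1 else 0 := by
      intro y _
      split_ifs <;> omega
    rw [Finset.sum_congr rfl h1, Finset.sum_add_distrib, mul_add, ih (by omega),
      ← Finset.card_filter]
    have h2 : (range n).filter (fun y => y < k + 1) = range (k + 1) := by
      ext y; simp; omega
    rw [h2, card_range]
    ring

theorem sum_pronic (m : ℕ) : 3 * ∑ k ∈ range (m + 1), k * (k + 1) = m * (m + 1) * (m + 2) := by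
  induction m with
  | zero => simp
  | succ m ih =>
    rw [sum_range_succ, mul_add, ih]; ring

theorem sum_corner (m : ℕ) :
    6 * ∑ x ∈ range (m + 1), ∑ y ∈ range (m + 1), (m - x - y) = m * (m + 1) * (m + 2) := by
  have h1 : ∀ x ∈ range (m + 1), 2 * ∑ y ∈ range (m + 1), (m - x - y) = (m - x) * (m - x + 1) := by
    intro x hx
    exact sum_tsub (m + 1) (m - x) (by omega)
  have h2 : 2 * ∑ x ∈ range (m + 1), ∑ y ∈ range (m + 1), (m - x - y) =
      ∑ k ∈ range (m + 1), k * (k + 1) := by
    rw [Finset.mul_sum, Finset.sum_congr rfl h1]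
    exact Finset.sum_flip (fun k => k * (k + 1))
  calc 6 * ∑ x ∈ range (m + 1), ∑ y ∈ range (m + 1), (m - x - y)
      = 3 * (2 * ∑ x ∈ range (m + 1), ∑ y ∈ range (m + 1), (m - x - y)) := by ring
    _ = _ := by rw [h2, sum_pronic]

theorem sum_corner' (m : ℕ) :
    ∑ x ∈ range (m + 1), ∑ y ∈ range (m + 1), (x + y - m) =
      ∑ x ∈ range (m + 1), ∑ y ∈ range (m + 1), (m - x - y) := by
  rw [← Finset.sum_flip]
  apply Finset.sum_congr rfl
  intro x hx
  rw [← Finset.sum_flip]
  apply Finset.sum_congr rfl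
  intro y hy
  have := Finset.mem_range.mp hx
  have := Finset.mem_range.mp hy
  omega

theorem card_S (m : ℕ) : 3 * (S m).card = 2 * m ^ 3 + 6 * m ^ 2 + 7 * m + 3 := by
  have h1 : (S m).card = ∑ x ∈ range (m + 1), ∑ y ∈ range (m + 1),
      ((m + 1) - (m - x - y) - (x + y - m)) := by
    unfold S
    rw [Finset.card_filter, Finset.sum_product]
    apply Finset.sum_congr rfl
    intro x hx
    rw [Finset.sum_product]
    apply Finset.sum_congr rfl
    intro y hy
    have hx' := Finset.mem_range.mp hx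
    have hy' := Finset.mem_range.mp hy
    rw [← Finset.card_filter]
    have h2 : (range (m + 1)).filter (fun w => m ≤ x + y + w ∧ x + y + w ≤ 2 * m) =
        Finset.Ico (m - x - y) ((m + 1) - (x + y - m)) := by
      ext w
      simp only [mem_filter, mem_range, mem_Ico]
      omega
    rw [h2, Nat.card_Ico]
    omega
  have h3 : (S m).card + (∑ x ∈ range (m + 1), ∑ y ∈ range (m + 1), (m - x - y)) +
      (∑ x ∈ range (m + 1), ∑ y ∈ range (m + 1), (x + y - m)) = (m + 1) ^ 3 := by
    rw [h1, ← Finset.sum_add_distrib, ← Finset.sum_add_distrib]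
    have h4 : ∀ x ∈ range (m + 1), (∑ y ∈ range (m + 1), ((m + 1) - (m - x - y) - (x + y - m)) +
        ∑ y ∈ range (m + 1), (m - x - y)) + ∑ y ∈ range (m + 1), (x + y - m) = (m + 1) ^ 2 := by
      intro x hx
      rw [← Finset.sum_add_distrib, ← Finset.sum_add_distrib]
      have h5 : ∀ y ∈ range (m + 1), ((m + 1) - (m - x - y) - (x + y - m)) + (m - x - y) +
          (x + y - m) = m + 1 := by
        intro y hy
        have hx' := Finset.mem_range.mp hx
        have hy' := Finset.mem_range.mp hy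
        omega
      rw [Finset.sum_congr rfl h5]
      simp; ring
    rw [Finset.sum_congr rfl h4]
    simp; ring
  rw [sum_corner'] at h3
  have h6 := sum_corner m
  nlinarith [h3, h6]

end Pool.Agent.H176_EH
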