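import Mathlib

/-!
# The hypersimplex `{x ∈ [0,1]^3 : 1 ≤ ∑ x ≤ 2}` as a convex hull
-/

set_option autoImplicit false
open scoped Pointwise

namespace Pool.Agent.H176_EH

/-- the six vertices -/
def V : Finset (Fin 3 → ℤ) :=
  {![1, 0, 0], ![0, 1, 0], ![0, 0, 1], ![1, 1, 0], ![1, 0, 1], ![0, 1, 1]}

/-- the hypersimplex given by inequalities -/
def Q : Set (Fin 3 → ℝ) :=
  {x | (∀ i, 0 ≤ x i ∧ x i ≤ 1) ∧ 1 ≤ x 0 + x 1 + x 2 ∧ x 0 + x 1 + x 2 ≤ 2}

theorem conv4 {K : Set (Fin 3 → ℝ)} (hK : Convex ℝ K) {p1 p2 p3 p4 : Fin 3 → ℝ}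
    (h1 : p1 ∈ K) (h2 : p2 ∈ K) (h3 : p3 ∈ K) (h4 : p4 ∈ K) {a b c d : ℝ}
    (ha : 0 ≤ a) (hb : 0 ≤ b) (hc : 0 ≤ c) (hd : 0 ≤ d) (hs : a + b + c + d = 1) :
    a • p1 + b • p2 + c • p3 + d • p4 ∈ K := by
  have h := hK.sum_mem (t := Finset.univ) (w := ![a, b, c, d]) (z := ![p1, p2, p3, p4])
    (by intro i _; fin_cases i <;> simp [ha, hb, hc, hd])
    (by simp [Fin.sum_univ_four, hs])
    (by intro i _; fin_cases i <;> simp [h1, h2, h3, h4])
  simpa [Fin.sum_univ_four] using h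

theorem convex_Q : Convex ℝ Q := by
  intro x hx y hy a b ha hb hab
  obtain ⟨hx1, hx2, hx3⟩ := hx
  obtain ⟨hy1, hy2, hy3⟩ := hy
  refine ⟨?_, ?_, ?_⟩
  · intro i
    simp only [Pi.add_apply, Pi.smul_apply, smul_eq_mul]
    constructor
    · have := mul_nonneg ha (hx1 i).1
      have := mul_nonneg hb (hy1 i).1
      linarith
    · have h1 := mul_le_mul_of_nonneg_left (hx1 i).2 ha
      have h2 := mul_le_mul_of_nonneg_left (hy1 i).2 hb
      linarith
  · simp only [Pi.add_apply, Pi.smul_apply, smul_eq_mul]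
    have h1 := mul_le_mul_of_nonneg_left hx2 ha
    have h2 := mul_le_mul_of_nonneg_left hy2 hb
    linarith
  · simp only [Pi.add_apply, Pi.smul_apply, smul_eq_mul]
    have h1 := mul_le_mul_of_nonneg_left hx3 ha
    have h2 := mul_le_mul_of_nonneg_left hy3 hb
    linarith

theorem hull_eq : convexHull ℝ
    ((fun v : Fin 3 → ℤ => fun j => ((v j : ℤ) : ℝ)) '' (V : Set (Fin 3 → ℤ))) = Q := by
  apply Set.Subset.antisymm
  · apply convexHull_min _ convex_Q
    rintro _ ⟨v, hv, rfl⟩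
    have hv' : v ∈ V := hv
    simp only [V, Finset.mem_insert, Finset.mem_singleton] at hv'
    rcases hv' with rfl | rfl | rfl | rfl | rfl | rfl <;>
      refine ⟨?_, ?_, ?_⟩ <;>
      first
        | (intro i; fin_cases i <;> simp)
        | (simp [Matrix.vecHead, Matrix.vecTail]; try norm_num)
  · intro x hx
    obtain ⟨hx1, hx2, hx3⟩ := hx
    have hK := convex_convexHull ℝ
      ((fun v : Fin 3 → ℤ => fun j => ((v j : ℤ) : ℝ)) '' (V : Set (Fin 3 → ℤ)))
    set K := convexHull ℝ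
      ((fun v : Fin 3 → ℤ => fun j => ((v j : ℤ) : ℝ)) '' (V : Set (Fin 3 → ℤ))) with hKdef
    have hmem : ∀ v ∈ V, (fun j => ((v j : ℤ) : ℝ)) ∈ K := by
      intro v hv
      exact subset_convexHull ℝ _ ⟨v, hv, rfl⟩
    have m1 := hmem ![1, 0, 0] (by decide)
    have m2 := hmem ![0, 1, 0] (by decide)
    have m3 := hmem ![0, 0, 1] (by decide)
    have m12 := hmem ![1, 1, 0] (by decide)
    have m13 := hmem ![1, 0, 1] (by decide)
    have m23 := hmem ![0, 1, 1] (by decide)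
    have a0 := hx1 0
    have a1 := hx1 1
    have a2 := hx1 2
    rcases le_total (x 0 + x 1) 1 with hb | hb <;> rcases le_total (x 0 + x 2) 1 with hc | hc
    · -- e1, e2+e3, e2, e3
      have := conv4 hK m1 m23 m2 m3 (a := x 0) (b := x 0 + x 1 + x 2 - 1) (c := 1 - x 0 - x 2)
        (d := 1 - x 0 - x 1) (by linarith) (by linarith) (by linarith) (by linarith) (by ring)
      convert this using 1
      ext i
      fin_cases i <;> simp <;> ring
    · -- e1, e2+e3, e3, e1+e3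
      have := conv4 hK m1 m23 m3 m13 (a := 1 - x 2) (b := x 1) (c := 1 - x 0 - x 1)
        (d := x 0 + x 2 - 1) (by linarith) (by linarith) (by linarith) (by linarith) (by ring)
      convert this using 1
      ext i
      fin_cases i <;> simp
    · have := conv4 hK m1 m23 m2 m12 (a := 1 - x 1) (b := x 2) (c := 1 - x 0 - x 2)
        (d := x 0 + x 1 - 1) (by linarith) (by linarith) (by linarith) (by linarith) (by ring)
      convert this using 1
      ext i
      fin_cases i <;> simp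
    · have := conv4 hK m1 m23 m12 m13 (a := 2 - x 0 - x 1 - x 2) (b := 1 - x 0)
        (c := x 0 + x 1 - 1)
        (d := x 0 + x 2 - 1) (by linarith) (by linarith) (by linarith) (by linarith) (by ring)
      convert this using 1
      ext i
      fin_cases i <;> simp <;> ring

theorem smul_Q (m : ℕ) (x : Fin 3 → ℝ) : x ∈ (m : ℝ) • Q ↔
    (∀ i, 0 ≤ x i ∧ x i ≤ m) ∧ (m : ℝ) ≤ x 0 + x 1 + x 2 ∧ x 0 + x 1 + x 2 ≤ 2 * m := by
  rcases Nat.eq_zero_or_pos m with rfl | hm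
  · have hne : Q.Nonempty := ⟨![1, 0, 0], by
      refine ⟨?_, ?_, ?_⟩
      · intro i; fin_cases i <;> simp
      · simp [Matrix.vecHead, Matrix.vecTail]
      · simp [Matrix.vecHead, Matrix.vecTail]⟩
    rw [Nat.cast_zero, Set.zero_smul_set hne, Set.mem_zero]
    constructor
    · rintro rfl
      simp
    · rintro ⟨h1, -, -⟩
      ext i
      have := h1 i
      simp only [Pi.zero_apply]
      linarith
  · have hm' : (0 : ℝ) < m := Nat.cast_pos.mpr hm
    rw [Set.mem_smul_set_iff_inv_smul_mem₀ hm'.ne']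
    simp only [Q, Set.mem_ofPred_eq, Pi.smul_apply, smul_eq_mul]
    have e1 : ∀ y : ℝ, (0 ≤ (m : ℝ)⁻¹ * y ↔ 0 ≤ y) := fun y => by
      constructor
      · intro h
        have := mul_nonneg hm'.le h
        rwa [mul_inv_cancel_left₀ hm'.ne'] at this
      · intro h; positivity
    have e2 : ∀ y c : ℝ, ((m : ℝ)⁻¹ * y ≤ c ↔ y ≤ m * c) := fun y c => by
      rw [inv_mul_le_iff₀ hm']
    have e3 : ∀ y c : ℝ, (c ≤ (m : ℝ)⁻¹ * y ↔ m * c ≤ y) := fun y c => by
      rw [le_inv_mul_iff₀ hm']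
    have e4 : (m : ℝ)⁻¹ * x 0 + (m : ℝ)⁻¹ * x 1 + (m : ℝ)⁻¹ * x 2 =
        (m : ℝ)⁻¹ * (x 0 + x 1 + x 2) := by ring
    rw [e4, e2, e3]
    simp only [e1, e2, mul_one]
    rw [mul_comm (m : ℝ) 2]

end Pool.Agent.H176_EH
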