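import Pool.Agent.H176_EH.Count
import Pool.Agent.H176_EH.Poly

/-!
# The group, the fixed points and the power series
-/

set_option autoImplicit false
open scoped Pointwise

namespace Pool.Agent.H176_EH

/-- The matrix of the cyclic shift by `g`. -/
def M (g : ZMod 3) : Matrix (Fin 3) (Fin 3) ℤ :=
  Matrix.of fun i j : Fin 3 => if ((i : ℕ) : ZMod 3) = ((j : ℕ) : ZMod 3) + g then 1 else 0

theorem M_mul (g h : ZMod 3) : M (g + h) = M g * M h := by
  revert g h; decide

theorem M_zero : M 0 = 1 := by decide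

theorem M_add_neg (g : ZMod 3) : M g * M (-g) = 1 := by
  rw [← M_mul, add_neg_cancel, M_zero]

theorem M_neg_add (g : ZMod 3) : M (-g) * M g = 1 := by
  rw [← M_mul, neg_add_cancel, M_zero]

/-- The action of the group of order three on `ℤ^3`. -/
def rho : Multiplicative (ZMod 3) →* Matrix.GeneralLinearGroup (Fin 3) ℤ where
  toFun g := ⟨M g.toAdd, M (-g.toAdd), M_add_neg _, M_neg_add _⟩
  map_one' := by
    ext1
    exact M_zero
  map_mul' g h := by
    ext1
    exact M_mul _ _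

theorem rho_val (g : Multiplicative (ZMod 3)) :
    ((rho g : Matrix.GeneralLinearGroup (Fin 3) ℤ) : Matrix (Fin 3) (Fin 3) ℤ) = M g.toAdd := rfl

theorem V_inv : ∀ g : ZMod 3, ∀ v ∈ V, Matrix.mulVec (M g) v ∈ V := by decide

/-- lattice points of the dilates -/
theorem lattice_iff (m : ℕ) (x : Fin 3 → ℤ) :
    ((fun j => ((x j : ℤ) : ℝ)) ∈ (m : ℝ) • Q) ↔
      (∀ i, 0 ≤ x i ∧ x i ≤ m) ∧ (m : ℤ) ≤ x 0 + x 1 + x 2 ∧ x 0 + x 1 + x 2 ≤ 2 * m := by
  rw [smul_Q]
  constructor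
  · rintro ⟨h1, h2, h3⟩
    refine ⟨fun i => ⟨by exact_mod_cast (h1 i).1, by exact_mod_cast (h1 i).2⟩, ?_, ?_⟩
    · exact_mod_cast h2
    · exact_mod_cast h3
  · rintro ⟨h1, h2, h3⟩
    refine ⟨fun i => ⟨by exact_mod_cast (h1 i).1, by exact_mod_cast (h1 i).2⟩, ?_, ?_⟩
    · exact_mod_cast h2
    · exact_mod_cast h3

/-- The fixed lattice points for `g = 0`. -/
theorem ncard_zero (m : ℕ) :
    Set.ncard {x : Fin 3 → ℤ | (fun j => ((x j : ℤ) : ℝ)) ∈ (m : ℝ) • Q ∧
      Matrix.mulVec (M 0) x = x} = (S m).card := by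
  let f : ℕ × ℕ × ℕ → (Fin 3 → ℤ) := fun t => ![(t.1 : ℤ), (t.2.1 : ℤ), (t.2.2 : ℤ)]
  have hf : Function.Injective f := by
    rintro ⟨a, b, c⟩ ⟨a', b', c'⟩ h
    have h0 := congrFun h 0
    have h1 := congrFun h 1
    have h2 := congrFun h 2
    simp [f] at h0 h1 h2
    simp [h0, h1, h2]
  have hset : {x : Fin 3 → ℤ | (fun j => ((x j : ℤ) : ℝ)) ∈ (m : ℝ) • Q ∧
      Matrix.mulVec (M 0) x = x} = f '' (S m : Set (ℕ × ℕ × ℕ)) := by
    ext x
    rw [Set.mem_ofPred_eq, lattice_iff, M_zero, Matrix.one_mulVec]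
    constructor
    · rintro ⟨⟨h1, h2, h3⟩, -⟩
      have a0 := h1 0
      have a1 := h1 1
      have a2 := h1 2
      refine ⟨((x 0).toNat, (x 1).toNat, (x 2).toNat), ?_, ?_⟩
      · simp only [S, Finset.coe_filter, Finset.mem_product, Finset.mem_range, Set.mem_ofPred_eq]
        refine ⟨⟨?_, ?_, ?_⟩, ?_, ?_⟩ <;> omega
      · ext i
        fin_cases i
        · simp [f, a0.1]
        · simp [f, a1.1]
        · simp [f, a2.1]
    · rintro ⟨⟨a, b, c⟩, ht, rfl⟩
      simp only [S, Finset.coe_filter, Finset.mem_product, Finset.mem_range, Set.mem_ofPred_eq] at ht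
      obtain ⟨⟨h1, h2, h3⟩, h4, h5⟩ := ht
      refine ⟨⟨?_, ?_, ?_⟩, rfl⟩
      · intro i
        fin_cases i
        · simp [f]; omega
        · simp [f]; omega
        · simp [f]; omega
      · simp [f]; omega
      · simp [f]; omega
  rw [hset, Set.ncard_image_of_injective _ hf, Set.ncard_coe_finset]

theorem fixed_iff (g : ZMod 3) (hg : g ≠ 0) (x : Fin 3 → ℤ) :
    Matrix.mulVec (M g) x = x ↔ x 0 = x 1 ∧ x 1 = x 2 := by
  have h : g = 1 ∨ g = 2 := by revert g; decide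
  have e : ∀ y : Fin 3 → ℤ, y = x ↔ y 0 = x 0 ∧ y 1 = x 1 ∧ y 2 = x 2 := by
    intro y
    constructor
    · rintro rfl; exact ⟨rfl, rfl, rfl⟩
    · rintro ⟨h0, h1, h2⟩
      ext i; fin_cases i
      · exact h0
      · exact h1
      · exact h2
  rcases h with rfl | rfl
  · have m1 : M 1 = !![0, 0, 1; 1, 0, 0; 0, 1, 0] := by decide
    rw [m1, e]
    simp [Matrix.mulVec, dotProduct, Fin.sum_univ_three]
    omega
  · have m2 : M 2 = !![0, 1, 0; 0, 0, 1; 1, 0, 0] := by decide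
    rw [m2, e]
    simp [Matrix.mulVec, dotProduct, Fin.sum_univ_three]
    omega

/-- The fixed lattice points for `g ≠ 0`. -/
theorem ncard_ne (g : ZMod 3) (hg : g ≠ 0) (m : ℕ) :
    Set.ncard {x : Fin 3 → ℤ | (fun j => ((x j : ℤ) : ℝ)) ∈ (m : ℝ) • Q ∧
      Matrix.mulVec (M g) x = x} = 2 * m / 3 + 1 - (m + 2) / 3 := by
  let f : ℕ → (Fin 3 → ℤ) := fun t => fun _ => (t : ℤ)
  have hf : Function.Injective f := by
    intro a b h
    have := congrFun h 0
    simpa [f] using this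
  have hset : {x : Fin 3 → ℤ | (fun j => ((x j : ℤ) : ℝ)) ∈ (m : ℝ) • Q ∧
      Matrix.mulVec (M g) x = x} = f '' (Finset.Icc ((m + 2) / 3) (2 * m / 3) : Set ℕ) := by
    ext x
    rw [Set.mem_ofPred_eq, lattice_iff, fixed_iff g hg]
    constructor
    · rintro ⟨⟨h1, h2, h3⟩, h4, h5⟩
      have a0 := h1 0
      refine ⟨(x 0).toNat, ?_, ?_⟩
      · rw [Finset.mem_coe, Finset.mem_Icc]
        constructor <;> omega
      · ext i
        fin_cases i
        · simp [f, a0.1]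
        · simp [f, a0.1]; omega
        · simp [f, a0.1]; omega
    · rintro ⟨a, ha, rfl⟩
      rw [Finset.mem_coe, Finset.mem_Icc] at ha
      refine ⟨⟨?_, ?_, ?_⟩, rfl, rfl⟩
      · intro i
        simp only [f]
        constructor <;> omega
      · simp only [f]; omega
      · simp only [f]; omega
  rw [hset, Set.ncard_image_of_injective _ hf, Set.ncard_coe_finset, Nat.card_Icc]

/-! ### power series -/

/-- backward difference -/
def D (f : ℕ → ℤ) : ℕ → ℤ
  | 0 => f 0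
  | n + 1 => f (n + 1) - f n

/-- backward difference of step three -/
def D3 (f : ℕ → ℤ) : ℕ → ℤ
  | 0 => f 0
  | 1 => f 1
  | 2 => f 2
  | n + 3 => f (n + 3) - f n

theorem mk_mul_D (f : ℕ → ℤ) : PowerSeries.mk f * (1 - PowerSeries.X) = PowerSeries.mk (D f) := by
  ext n
  rw [mul_sub, mul_one, map_sub]
  cases n with
  | zero => simp [D]
  | succ n => rw [PowerSeries.coeff_succ_mul_X]; simp [D]

theorem mk_mul_D3 (f : ℕ → ℤ) :
    PowerSeries.mk f * (1 - PowerSeries.X ^ 3) = PowerSeries.mk (D3 f) := by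
  ext n
  rw [mul_sub, mul_one, map_sub, PowerSeries.coeff_mul_X_pow']
  rcases n with _ | _ | _ | n
  · simp [D3]
  · simp [D3]
  · simp [D3]
  · simp [D3]

end Pool.Agent.H176_EH
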